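import Pool.Agent.Helper19.HO.Defs
import Mathlib.Analysis.Calculus.BumpFunction.FiniteDimension
import Mathlib.Analysis.Calculus.BumpFunction.InnerProduct

/-!
# Project HO (MP_19c155_gt), piece HO-21: the homogeneous extension of a field on the sphere
-/

open MeasureTheory Set Metric Filter Module
open scoped NNReal Topology RealInnerProductSpace ENNReal Real ContDiff Manifold

namespace Pool.Agent.Helper19.HO

section Field

variable {E : Type*} [NormedAddCommGroup E] [InnerProductSpace ℝ E]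

private lemma P21_norm_normalize {y : E} (hy : y ≠ 0) : ‖‖y‖⁻¹ • y‖ = 1 := by
  rw [norm_smul, norm_inv, norm_norm, inv_mul_cancel₀ (norm_ne_zero_iff.2 hy)]

private lemma P21_radExt_of_ne (V : sphere (0 : E) 1 → E) {y : E} (hy : y ≠ 0) :
    radExt V y = V ⟨‖y‖⁻¹ • y, mem_sphere_zero_iff_norm.2 (P21_norm_normalize hy)⟩ := dif_neg hy

private lemma P21_radExt_zero (V : sphere (0 : E) 1 → E) : radExt V 0 = 0 := dif_pos rfl

private lemma P21_radExt_smul (V : sphere (0 : E) 1 → E) (x : E) {t : ℝ} (ht : 0 < t) :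
    radExt V (t • x) = radExt V x := by
  by_cases hx : x = 0
  · subst hx; rw [smul_zero]
  · rw [P21_radExt_of_ne V hx, P21_radExt_of_ne V (smul_ne_zero ht.ne' hx)]
    congr 2
    rw [norm_smul, Real.norm_eq_abs, abs_of_pos ht, smul_smul]
    congr 1
    field_simp

private lemma P21_contDiffAt_radExt [FiniteDimensional ℝ E] {k : ℕ} [Fact (finrank ℝ E = k + 1)]
    {V : sphere (0 : E) 1 → E} (hV : ContMDiff (𝓡 k) 𝓘(ℝ, E) 1 V) {y0 : E}
    (hy0 : y0 ≠ 0) : ContDiffAt ℝ 1 (radExt V) y0 := by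
  have hn0 : 0 < ‖y0‖ := norm_pos_iff.2 hy0
  let χ : ContDiffBump y0 := ⟨‖y0‖ / 4, ‖y0‖ / 2, by positivity, by linarith⟩
  set F : E → E := fun y => y0 + χ y • (y - y0) with hF
  have hFc : ContDiff ℝ 1 F :=
    contDiff_const.add ((χ.contDiff).smul (contDiff_id.sub contDiff_const))
  have hF0 : ∀ y, F y ≠ 0 := by
    intro y h
    have h1 : ‖F y - y0‖ < ‖y0‖ := by
      rw [hF]
      simp only [add_sub_cancel_left, norm_smul, Real.norm_eq_abs, abs_of_nonneg χ.nonneg]
      by_cases hy : y ∈ ball y0 (‖y0‖ / 2)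
      · rw [mem_ball_iff_norm] at hy
        calc χ y * ‖y - y0‖ ≤ 1 * ‖y - y0‖ := by
              exact mul_le_mul_of_nonneg_right χ.le_one (norm_nonneg _)
          _ < ‖y0‖ := by linarith
      · have : χ y = 0 := χ.zero_of_le_dist (by
          rw [mem_ball, not_lt] at hy
          exact hy)
        rw [this, zero_mul]
        exact hn0
    rw [h, zero_sub, norm_neg] at h1
    exact lt_irrefl _ h1
  set N : E → E := fun y => ‖F y‖⁻¹ • F y with hN
  have hNc : ContDiff ℝ 1 N := (ContDiff.inv (hFc.norm ℝ hF0) (fun y => norm_ne_zero_iff.2 (hF0 y))).smul hFc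
  have hNs : ∀ y, N y ∈ sphere (0 : E) 1 := fun y => by
    rw [mem_sphere_zero_iff_norm]
    exact P21_norm_normalize (hF0 y)
  have h2 : ContMDiff 𝓘(ℝ, E) (𝓡 k) 1 (Set.codRestrict N (sphere 0 1) hNs) :=
    (contMDiff_iff_contDiff.2 hNc).codRestrict_sphere hNs
  have h3 : ContDiff ℝ 1 (V ∘ Set.codRestrict N (sphere 0 1) hNs) :=
    contMDiff_iff_contDiff.1 (hV.comp h2)
  refine h3.contDiffAt.congr_of_eventuallyEq ?_
  filter_upwards [ball_mem_nhds y0 (by positivity : 0 < ‖y0‖ / 4)] with y hy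
  have h4 : χ y = 1 := χ.one_of_mem_closedBall (ball_subset_closedBall hy)
  have h5 : F y = y := by simp [hF, h4]
  have hy1 : y ≠ 0 := by rw [← h5]; exact hF0 y
  rw [P21_radExt_of_ne V hy1]
  simp only [Function.comp_apply]
  congr 1
  apply Subtype.ext
  rw [Set.val_codRestrict_apply]
  simp only [hN, h5]

theorem contDiffOn_hext [FiniteDimensional ℝ E] {k : ℕ} [Fact (finrank ℝ E = k + 1)]
    {W : sphere (0 : E) 1 → E}
    (hW : ContMDiff (𝓡 k) 𝓘(ℝ, E) 1 W) : ContDiffOn ℝ 1 (hext W) {0}ᶜ := by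
  intro y hy
  have hy0 : y ≠ 0 := hy
  exact ((contDiffAt_norm ℝ hy0).smul (P21_contDiffAt_radExt hW hy0)).contDiffWithinAt

theorem hext_coe (W : sphere (0 : E) 1 → E) (x : sphere (0 : E) 1) : hext W x = W x := by
  have h1 : ‖(x : E)‖ = 1 := mem_sphere_zero_iff_norm.1 x.2
  have hx : (x : E) ≠ 0 := norm_ne_zero_iff.1 (by rw [h1]; exact one_ne_zero)
  have h2 : (⟨‖(x : E)‖⁻¹ • (x : E), mem_sphere_zero_iff_norm.2 (P21_norm_normalize hx)⟩ :
      sphere (0 : E) 1) = x := by
    apply Subtype.ext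
    simp only [h1, inv_one, one_smul]
  rw [hext, P21_radExt_of_ne W hx, h2, h1, one_smul]

theorem hext_homog (W : sphere (0 : E) 1 → E) (y : E) (t : ℝ) (ht : 0 < t) :
    hext W (t • y) = t • hext W y := by
  rw [hext, hext, P21_radExt_smul W y ht, norm_smul, Real.norm_eq_abs, abs_of_pos ht, mul_smul]

theorem hext_odd {W : sphere (0 : E) 1 → E} (hodd : ∀ x, W (-x) = -W x) (y : E) :
    hext W (-y) = -hext W y := by
  by_cases hy : y = 0
  · subst hy
    simp [hext]
  · have h2 : (⟨‖-y‖⁻¹ • -y, mem_sphere_zero_iff_norm.2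
        (P21_norm_normalize (neg_ne_zero.2 hy))⟩ : sphere (0 : E) 1)
        = -⟨‖y‖⁻¹ • y, mem_sphere_zero_iff_norm.2 (P21_norm_normalize hy)⟩ := by
      apply Subtype.ext
      simp [norm_neg]
    rw [hext, hext, P21_radExt_of_ne W hy, P21_radExt_of_ne W (neg_ne_zero.2 hy), h2, hodd,
      norm_neg, smul_neg]

theorem norm_hext {W : sphere (0 : E) 1 → E} {r : ℝ} (hn : ∀ x, ‖W x‖ = r) (y : E) :
    ‖hext W y‖ = r * ‖y‖ := by
  by_cases hy : y = 0
  · subst hy
    simp [hext]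
  · rw [hext, P21_radExt_of_ne W hy, norm_smul, norm_norm, hn, mul_comm]

theorem inner_hext {W : sphere (0 : E) 1 → E} (ht : ∀ x : sphere (0 : E) 1, ⟪(x : E), W x⟫ = 0)
    (y : E) : ⟪y, hext W y⟫ = 0 := by
  by_cases hy : y = 0
  · subst hy
    simp
  · have h := ht ⟨‖y‖⁻¹ • y, mem_sphere_zero_iff_norm.2 (P21_norm_normalize hy)⟩
    rw [hext, P21_radExt_of_ne W hy, inner_smul_right]
    simp only [inner_smul_left, RCLike.conj_to_real] at h
    rcases mul_eq_zero.1 h with h | h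
    · exact absurd (inv_eq_zero.1 h) (norm_ne_zero_iff.2 hy)
    · rw [h, mul_zero]

end Field

end Pool.Agent.Helper19.HO
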